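import Mathlib

/-!
# The local dimension of the Boolean lattice `2^n` is less than `n` for every `n ≥ 4`

`ldim (2^n) = n` holds exactly for `n ≤ 3`.  In fact `ldim (2^4) = 3` (four partial linear
extensions found by a SAT solver) and, as the local dimension is subadditive for products,
`ldim (2^n) ≤ n - ⌊n/4⌋` for every `n`.
-/

set_option autoImplicit false

namespace Pool.Agent.Results.MP_666a49_co.BooleanLdim

/-- A partial linear extension (ple) of the poset `α`: a (strict) linear order `lt` on a subset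
`carrier` of `α` which extends the order of `α` on `carrier`. -/
structure Ple (α : Type) [PartialOrder α] where
  carrier : Set α
  lt : α → α → Prop
  irrefl : ∀ x ∈ carrier, ¬ lt x x
  trans : ∀ x ∈ carrier, ∀ y ∈ carrier, ∀ z ∈ carrier, lt x y → lt y z → lt x z
  total : ∀ x ∈ carrier, ∀ y ∈ carrier, x ≠ y → lt x y ∨ lt y x
  ext : ∀ x ∈ carrier, ∀ y ∈ carrier, x < y → lt x y

/-- A finite family of ples is a local realizer of `α`: every pair `x < y` lies in some member,
and for incomparable `x`, `y` some member contains both with `x` before `y` (as this is demanded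
for both orders of the pair, another member has `y` before `x`). -/
def IsLocalRealizer {α : Type} [PartialOrder α] {m : ℕ} (L : Fin m → Ple α) : Prop :=
  (∀ x y : α, x < y → ∃ i, x ∈ (L i).carrier ∧ y ∈ (L i).carrier ∧ (L i).lt x y) ∧
  (∀ x y : α, ¬ x ≤ y → ¬ y ≤ x → ∃ i, x ∈ (L i).carrier ∧ y ∈ (L i).carrier ∧ (L i).lt x y)

/-- the number of members of the family that contain `x` -/
noncomputable def freq {α : Type} [PartialOrder α] {m : ℕ} (L : Fin m → Ple α) (x : α) : ℕ :=
  Nat.card {i : Fin m // x ∈ (L i).carrier}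

/-- the local dimension of a finite poset -/
noncomputable def ldim (α : Type) [PartialOrder α] : ℕ :=
  sInf {k | ∃ (m : ℕ) (L : Fin m → Ple α), IsLocalRealizer L ∧ ∀ x, freq L x ≤ k}

/-! ### general facts -/

/-- a local realizer indexed by a finite type, with all frequencies at most `k` -/
def LdimLE (α : Type) [PartialOrder α] (k : ℕ) : Prop :=
  ∃ (m : ℕ) (L : Fin m → Ple α), IsLocalRealizer L ∧ ∀ x, freq L x ≤ k

theorem LdimLE.of_fintype {α : Type} [PartialOrder α] {k : ℕ} (ι : Type) [Finite ι]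
    (L : ι → Ple α)
    (h1 : ∀ x y : α, x < y → ∃ i, x ∈ (L i).carrier ∧ y ∈ (L i).carrier ∧ (L i).lt x y)
    (h2 : ∀ x y : α, ¬ x ≤ y → ¬ y ≤ x →
      ∃ i, x ∈ (L i).carrier ∧ y ∈ (L i).carrier ∧ (L i).lt x y)
    (h3 : ∀ x, Nat.card {i : ι // x ∈ (L i).carrier} ≤ k) : LdimLE α k := by
  obtain ⟨m, ⟨e⟩⟩ := Finite.exists_equiv_fin ι
  refine ⟨m, fun i => L (e.symm i), ⟨?_, ?_⟩, ?_⟩
  · intro x y hxy
    obtain ⟨i, hi⟩ := h1 x y hxy
    exact ⟨e i, by simpa using hi⟩
  · intro x y hxy hyx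
    obtain ⟨i, hi⟩ := h2 x y hxy hyx
    exact ⟨e i, by simpa using hi⟩
  · intro x
    refine le_trans (le_of_eq ?_) (h3 x)
    unfold freq
    exact Nat.card_congr (e.symm.subtypeEquiv (fun i => Iff.rfl))

theorem LdimLE.mono {α : Type} [PartialOrder α] {k l : ℕ} (h : LdimLE α k) (hkl : k ≤ l) :
    LdimLE α l := by
  obtain ⟨m, L, h1, h2⟩ := h
  exact ⟨m, L, h1, fun x => (h2 x).trans hkl⟩

/-- pull back of a ple along an order embedding -/
def Ple.pull {α β : Type} [PartialOrder α] [PartialOrder β] (g : α ↪o β) (L : Ple β) : Ple α where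
  carrier := g ⁻¹' L.carrier
  lt := fun x y => L.lt (g x) (g y)
  irrefl := fun _ hx => L.irrefl _ hx
  trans := fun _ hx _ hy _ hz => L.trans _ hx _ hy _ hz
  total := fun _ hx _ hy hxy => L.total _ hx _ hy (fun h => hxy (g.injective h))
  ext := fun _ hx _ hy hxy => L.ext _ hx _ hy (g.lt_iff_lt.mpr hxy)

theorem LdimLE.of_embedding {α β : Type} [PartialOrder α] [PartialOrder β] (g : α ↪o β) {k : ℕ}
    (h : LdimLE β k) : LdimLE α k := by
  obtain ⟨m, L, ⟨h1, h2⟩, h3⟩ := h
  refine ⟨m, fun i => (L i).pull g, ⟨?_, ?_⟩, ?_⟩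
  · intro x y hxy
    exact h1 (g x) (g y) (g.lt_iff_lt.mpr hxy)
  · intro x y hxy hyx
    exact h2 (g x) (g y) (fun h => hxy (g.le_iff_le.mp h)) (fun h => hyx (g.le_iff_le.mp h))
  · intro x
    exact h3 (g x)

/-- a poset on a finite type has a linear extension (as a strict relation) -/
theorem exists_linext (α : Type) [PartialOrder α] :
    ∃ r : α → α → Prop, (∀ x, ¬ r x x) ∧ (∀ x y z, r x y → r y z → r x z) ∧
      (∀ x y, x ≠ y → r x y ∨ r y x) ∧ (∀ x y, x < y → r x y) := by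
  obtain ⟨s, hs, hle⟩ := extend_partialOrder (α := α) (· ≤ ·)
  refine ⟨fun x y => s x y ∧ x ≠ y, ?_, ?_, ?_, ?_⟩
  · intro x h
    exact h.2 rfl
  · intro x y z hxy hyz
    refine ⟨hs.trans _ _ _ hxy.1 hyz.1, ?_⟩
    rintro rfl
    exact hxy.2 (hs.antisymm _ _ hxy.1 hyz.1)
  · intro x y hxy
    rcases hs.total x y with h | h
    · exact Or.inl ⟨h, hxy⟩
    · exact Or.inr ⟨h, hxy.symm⟩
  · intro x y hxy
    exact ⟨hle x y hxy.le, hxy.ne⟩

/-- lexicographic ple on a product, first factor dominant -/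
def Ple.prodL {α β : Type} [PartialOrder α] [PartialOrder β] (L : Ple α) (r : β → β → Prop)
    (hr : (∀ x, ¬ r x x) ∧ (∀ x y z, r x y → r y z → r x z) ∧
      (∀ x y, x ≠ y → r x y ∨ r y x) ∧ (∀ x y, x < y → r x y)) : Ple (α × β) where
  carrier := {p | p.1 ∈ L.carrier}
  lt := fun p q => L.lt p.1 q.1 ∨ (p.1 = q.1 ∧ r p.2 q.2)
  irrefl := by
    rintro p hp (h | h)
    · exact L.irrefl _ hp h
    · exact hr.1 _ h.2
  trans := by
    rintro p hp q hq s hs (h | h) (h' | h')
    · exact Or.inl (L.trans _ hp _ hq _ hs h h')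
    · left; rw [← h'.1]; exact h
    · left; rw [h.1]; exact h'
    · exact Or.inr ⟨h.1.trans h'.1, hr.2.1 _ _ _ h.2 h'.2⟩
  total := by
    rintro ⟨a, b⟩ hp ⟨c, d⟩ hq hpq
    by_cases hac : a = c
    · subst hac
      have hbd : b ≠ d := fun h => hpq (by rw [h])
      rcases hr.2.2.1 b d hbd with h | h
      · exact Or.inl (Or.inr ⟨rfl, h⟩)
      · exact Or.inr (Or.inr ⟨rfl, h⟩)
    · rcases L.total a hp c hq hac with h | h
      · exact Or.inl (Or.inl h)
      · exact Or.inr (Or.inl h)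
  ext := by
    rintro ⟨a, b⟩ hp ⟨c, d⟩ hq hpq
    rw [Prod.lt_iff] at hpq
    rcases hpq with h | h
    · exact Or.inl (L.ext _ hp _ hq h.1)
    · rcases h.1.lt_or_eq with h' | h'
      · exact Or.inl (L.ext _ hp _ hq h')
      · exact Or.inr ⟨h', hr.2.2.2 _ _ h.2⟩

/-- the local dimension is subadditive for products (statement with bounds) -/
theorem LdimLE.prod {α β : Type} [PartialOrder α] [PartialOrder β] {a b : ℕ}
    (ha : LdimLE α a) (hb : LdimLE β b) : LdimLE (α × β) (a + b) := by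
  obtain ⟨m, L, ⟨h1, h2⟩, h3⟩ := ha
  obtain ⟨n, M, ⟨g1, g2⟩, g3⟩ := hb
  obtain ⟨r, hr⟩ := exists_linext α
  obtain ⟨s, hs⟩ := exists_linext β
  let F : Fin m ⊕ Fin n → Ple (α × β) := fun i => match i with
    | Sum.inl i => (L i).prodL s hs
    | Sum.inr j => ((M j).prodL r hr).pull (OrderIso.prodComm (α := α) (β := β)).toOrderEmbedding
  -- a strict pair in the first coordinate is realised by an `inl`
  have HA : ∀ (p q : α × β), p.1 ≠ q.1 → ¬ q.1 ≤ p.1 →
      ∃ i, p ∈ (F i).carrier ∧ q ∈ (F i).carrier ∧ (F i).lt p q := by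
    intro p q hne hle
    by_cases hlt : p.1 ≤ q.1
    · obtain ⟨i, hi1, hi2, hi3⟩ := h1 p.1 q.1 (lt_of_le_of_ne hlt hne)
      exact ⟨Sum.inl i, hi1, hi2, Or.inl hi3⟩
    · obtain ⟨i, hi1, hi2, hi3⟩ := h2 p.1 q.1 hlt hle
      exact ⟨Sum.inl i, hi1, hi2, Or.inl hi3⟩
  have HB : ∀ (p q : α × β), p.2 ≠ q.2 → ¬ q.2 ≤ p.2 →
      ∃ i, p ∈ (F i).carrier ∧ q ∈ (F i).carrier ∧ (F i).lt p q := by
    intro p q hne hle
    by_cases hlt : p.2 ≤ q.2
    · obtain ⟨i, hi1, hi2, hi3⟩ := g1 p.2 q.2 (lt_of_le_of_ne hlt hne)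
      exact ⟨Sum.inr i, hi1, hi2, Or.inl hi3⟩
    · obtain ⟨i, hi1, hi2, hi3⟩ := g2 p.2 q.2 hlt hle
      exact ⟨Sum.inr i, hi1, hi2, Or.inl hi3⟩
  -- if `¬ q ≤ p` then the pair `(p, q)` is realised
  have H : ∀ (p q : α × β), ¬ q ≤ p → ∃ i, p ∈ (F i).carrier ∧ q ∈ (F i).carrier ∧
      (F i).lt p q := by
    intro p q hqp
    have : ¬ q.1 ≤ p.1 ∨ ¬ q.2 ≤ p.2 := by
      by_contra hcon
      push Not at hcon
      exact hqp ⟨hcon.1, hcon.2⟩
    rcases this with h | h
    · exact HA p q (fun he => h (le_of_eq he.symm)) h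
    · exact HB p q (fun he => h (le_of_eq he.symm)) h
  refine LdimLE.of_fintype (Fin m ⊕ Fin n) F (fun x y hxy => H x y (not_le_of_gt hxy))
    (fun x y _ hyx => H x y hyx) ?_
  intro x
  have e : {i : Fin m ⊕ Fin n // x ∈ (F i).carrier} ≃
      {i : Fin m // x.1 ∈ (L i).carrier} ⊕ {j : Fin n // x.2 ∈ (M j).carrier} :=
    { toFun := fun i => match i with
        | ⟨Sum.inl i, hi⟩ => Sum.inl ⟨i, hi⟩
        | ⟨Sum.inr j, hj⟩ => Sum.inr ⟨j, hj⟩
      invFun := fun i => match i with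
        | Sum.inl i => ⟨Sum.inl i.1, i.2⟩
        | Sum.inr j => ⟨Sum.inr j.1, j.2⟩
      left_inv := by rintro ⟨i | j, h⟩ <;> rfl
      right_inv := by rintro (i | j) <;> rfl }
  rw [Nat.card_congr e, Nat.card_sum]
  exact add_le_add (h3 x.1) (g3 x.2)

/-- the sets of a disjoint union -/
theorem LdimLE.add {m n a b : ℕ} (ha : LdimLE (Finset (Fin m)) a) (hb : LdimLE (Finset (Fin n)) b) :
    LdimLE (Finset (Fin (m + n))) (a + b) :=
  (ha.prod hb).of_embedding
    ((Finset.mapEmbedding (finSumFinEquiv (m := m) (n := n)).symm.toEmbedding).trans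
      (Finset.sumEquiv (α := Fin m) (β := Fin n)).toOrderEmbedding)

/-! ### the four ples of `2^4` -/

/-- a subset of `Fin 4` as a number below `16` -/
def code (s : Finset (Fin 4)) : ℕ :=
  (if (0 : Fin 4) ∈ s then 1 else 0) + (if (1 : Fin 4) ∈ s then 2 else 0) +
    (if (2 : Fin 4) ∈ s then 4 else 0) + (if (3 : Fin 4) ∈ s then 8 else 0)

/-- four linear orders on subsets of `2^4` -/
def lists : Fin 4 → List ℕ
  | 0 => [2, 10, 1, 3, 11, 4, 5, 6, 7, 12]
  | 1 => [0, 1, 8, 9, 4, 12, 13, 2, 6, 10, 11, 14, 15]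
  | 2 => [0, 4, 6, 8, 12, 14, 1, 9, 5, 13, 3, 7, 15]
  | 3 => [0, 5, 2, 3, 7, 8, 10, 14, 9, 11, 13, 15]

/-- position of a set in the list number `i` -/
def ix (i : Fin 4) (s : Finset (Fin 4)) : ℕ := (lists i).idxOf (code s)

theorem four_inj : ∀ i : Fin 4, ∀ x y : Finset (Fin 4), code x ∈ lists i → code y ∈ lists i →
    ix i x = ix i y → x = y := by decide +kernel

theorem four_ext : ∀ i : Fin 4, ∀ x y : Finset (Fin 4), code x ∈ lists i → code y ∈ lists i →
    x ⊂ y → ix i x < ix i y := by decide +kernel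

theorem four_cover : ∀ x y : Finset (Fin 4), ¬ y ⊆ x →
    ∃ i : Fin 4, code x ∈ lists i ∧ code y ∈ lists i ∧ ix i x < ix i y := by decide +kernel

theorem four_freq : ∀ x : Finset (Fin 4),
    (Finset.univ.filter (fun i : Fin 4 => code x ∈ lists i)).card ≤ 3 := by decide +kernel

/-- the ple number `i` -/
def four (i : Fin 4) : Ple (Finset (Fin 4)) where
  carrier := {s | code s ∈ lists i}
  lt := fun x y => ix i x < ix i y
  irrefl := fun _ _ => lt_irrefl _
  trans := fun _ _ _ _ _ _ h h' => lt_trans h h'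
  total := fun x hx y hy hxy => lt_or_gt_of_ne (fun h => hxy (four_inj i x y hx hy h))
  ext := fun x hx y hy hxy => four_ext i x y hx hy hxy

theorem ldimLE_four : LdimLE (Finset (Fin 4)) 3 := by
  refine ⟨4, four, ⟨?_, ?_⟩, ?_⟩
  · intro x y hxy
    exact four_cover x y (fun h => absurd h (not_le_of_gt hxy))
  · intro x y _ hyx
    exact four_cover x y (fun h => hyx h)
  · intro x
    classical
    have h := four_freq x
    unfold freq
    rw [Nat.card_eq_fintype_card, Fintype.card_subtype]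
    refine le_trans (le_of_eq ?_) h
    congr 1
    ext i
    simp only [Finset.mem_filter, Finset.mem_univ, true_and]
    exact Iff.rfl

theorem ldimLE_zero : LdimLE (Finset (Fin 0)) 0 := by
  refine ⟨0, fun i => i.elim0, ⟨?_, ?_⟩, ?_⟩
  · intro x y hxy
    exact absurd (Subsingleton.elim x y) hxy.ne
  · intro x y hxy
    exact absurd (le_of_eq (Subsingleton.elim x y)) hxy
  · intro x
    simp [freq]

theorem ldimLE_one : LdimLE (Finset (Fin 1)) 1 := by
  obtain ⟨r, hr⟩ := exists_linext (Finset (Fin 1))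
  let P : Ple (Finset (Fin 1)) :=
    { carrier := Set.univ
      lt := r
      irrefl := fun x _ => hr.1 x
      trans := fun x _ y _ z _ => hr.2.1 x y z
      total := fun x _ y _ => hr.2.2.1 x y
      ext := fun x _ y _ => hr.2.2.2 x y }
  refine ⟨1, fun _ => P, ⟨?_, ?_⟩, ?_⟩
  · intro x y hxy
    exact ⟨0, trivial, trivial, hr.2.2.2 x y hxy⟩
  · intro x y h1 h2
    exfalso
    revert x y
    decide
  · intro x
    unfold freq
    refine (Finite.card_subtype_le _).trans ?_
    simp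

theorem ldimLE_n (n : ℕ) : LdimLE (Finset (Fin n)) n := by
  induction n with
  | zero => exact ldimLE_zero
  | succ n ih => exact ih.add ldimLE_one

theorem ldimLE_main (n : ℕ) : LdimLE (Finset (Fin n)) (n - n / 4) := by
  induction n using Nat.strong_induction_on with
  | _ n ih =>
    by_cases h : n < 4
    · have : n / 4 = 0 := Nat.div_eq_of_lt h
      rw [this]
      exact ldimLE_n n
    · obtain ⟨k, rfl⟩ : ∃ k, n = k + 4 := ⟨n - 4, by omega⟩
      have := (ih k (by omega)).add ldimLE_four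
      refine this.mono ?_
      omega

/-! ### lower bounds -/

theorem freq_ge_one {α : Type} [PartialOrder α] {m : ℕ} {L : Fin m → Ple α}
    (h : IsLocalRealizer L) {x y : α} (hxy : x < y) : 1 ≤ freq L x := by
  obtain ⟨i, hi, _, _⟩ := h.1 x y hxy
  unfold freq
  have : Nonempty {i : Fin m // x ∈ (L i).carrier} := ⟨⟨i, hi⟩⟩
  exact Nat.card_pos

/-- incomparable elements: two different members contain both, in opposite orders -/
theorem two_members {α : Type} [PartialOrder α] {m : ℕ} {L : Fin m → Ple α}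
    (h : IsLocalRealizer L) {x y : α} (hxy : ¬ x ≤ y) (hyx : ¬ y ≤ x) :
    ∃ i j, i ≠ j ∧ x ∈ (L i).carrier ∧ y ∈ (L i).carrier ∧ (L i).lt x y ∧
      x ∈ (L j).carrier ∧ y ∈ (L j).carrier ∧ (L j).lt y x := by
  obtain ⟨i, h1, h2, h3⟩ := h.2 x y hxy hyx
  obtain ⟨j, g1, g2, g3⟩ := h.2 y x hyx hxy
  refine ⟨i, j, ?_, h1, h2, h3, g2, g1, g3⟩
  rintro rfl
  exact (L i).irrefl x h1 ((L i).trans _ h1 _ h2 _ h1 h3 g3)

theorem freq_ge_two {α : Type} [PartialOrder α] {m : ℕ} {L : Fin m → Ple α}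
    (h : IsLocalRealizer L) {x y : α} (hxy : ¬ x ≤ y) (hyx : ¬ y ≤ x) : 2 ≤ freq L x := by
  classical
  obtain ⟨i, j, hij, h1, _, _, h2, _, _⟩ := two_members h hxy hyx
  unfold freq
  rw [Nat.card_eq_fintype_card, Nat.succ_le_iff, Fintype.one_lt_card_iff]
  exact ⟨⟨i, h1⟩, ⟨j, h2⟩, fun he => hij (congrArg Subtype.val he)⟩

/-- if `x` lies in at most two members and is incomparable to `y`, then every member that
contains `x` contains `y` -/
theorem mem_of_mem {α : Type} [PartialOrder α] {m : ℕ} {L : Fin m → Ple α}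
    (h : IsLocalRealizer L) {x y : α} (hxy : ¬ x ≤ y) (hyx : ¬ y ≤ x) (h2 : freq L x ≤ 2)
    {k : Fin m} (hk : x ∈ (L k).carrier) : y ∈ (L k).carrier := by
  classical
  obtain ⟨i, j, hij, h1, h1', _, g1, g1', _⟩ := two_members h hxy hyx
  by_contra hy
  have hki : k ≠ i := by rintro rfl; exact hy h1'
  have hkj : k ≠ j := by rintro rfl; exact hy g1'
  have : 2 < freq L x := by
    unfold freq
    rw [Nat.card_eq_fintype_card, Fintype.two_lt_card_iff]
    exact ⟨⟨i, h1⟩, ⟨j, g1⟩, ⟨k, hk⟩, fun he => hij (congrArg Subtype.val he),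
      fun he => hki (congrArg Subtype.val he).symm, fun he => hkj (congrArg Subtype.val he).symm⟩
  omega

/-- a poset which contains the standard example `S_3` has local dimension at least three -/
theorem not_le_two {α : Type} [PartialOrder α] (a b : Fin 3 → α)
    (hab : ∀ i j, i ≠ j → a i < b j) (hne : ∀ i, ¬ a i ≤ b i) (hba : ∀ i, ¬ b i ≤ a i)
    (ha : ∀ i j, i ≠ j → ¬ a i ≤ a j) : ¬ LdimLE α 2 := by
  classical
  rintro ⟨m, L, h, hf⟩
  -- the members containing `a 0` contain all `a i` and all `b i`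
  obtain ⟨p, q, hpq, hp0, -, -, hq0, -, -⟩ := two_members h (ha 0 1 (by decide)) (ha 1 0 (by decide))
  have hA : ∀ k, a 0 ∈ (L k).carrier → ∀ i, a i ∈ (L k).carrier := by
    intro k hk i
    by_cases hi : i = 0
    · rw [hi]; exact hk
    · exact mem_of_mem h (ha 0 i (Ne.symm hi)) (ha i 0 hi) (hf _) hk
  have hB : ∀ k, a 0 ∈ (L k).carrier → ∀ i, b i ∈ (L k).carrier := by
    intro k hk i
    exact mem_of_mem h (hne i) (hba i) (hf _) (hA k hk i)
  -- each pair `(b i, a i)` is reversed in `p` or in `q`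
  have hrev : ∀ i, (L p).lt (b i) (a i) ∨ (L q).lt (b i) (a i) := by
    intro i
    obtain ⟨k, hk1, hk2, hk3⟩ := h.2 (b i) (a i) (hba i) (hne i)
    have hk0 : a 0 ∈ (L k).carrier := by
      by_cases hi : i = 0
      · rw [← hi]; exact hk2
      · exact mem_of_mem h (ha i 0 hi) (ha 0 i (Ne.symm hi)) (hf _) hk2
    have : k = p ∨ k = q := by
      by_contra hcon
      push Not at hcon
      have h3 : 2 < freq L (a 0) := by
        unfold freq
        rw [Nat.card_eq_fintype_card, Fintype.two_lt_card_iff]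
        exact ⟨⟨p, hp0⟩, ⟨q, hq0⟩, ⟨k, hk0⟩, fun he => hpq (congrArg Subtype.val he),
          fun he => hcon.1 (congrArg Subtype.val he).symm,
          fun he => hcon.2 (congrArg Subtype.val he).symm⟩
      have := hf (a 0)
      omega
    rcases this with rfl | rfl
    · exact Or.inl hk3
    · exact Or.inr hk3
  -- no member reverses two of the pairs
  have hno : ∀ k, a 0 ∈ (L k).carrier → ∀ i j, i ≠ j → (L k).lt (b i) (a i) →
      (L k).lt (b j) (a j) → False := by
    intro k hk i j hij h1 h2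
    have A := hA k hk
    have B := hB k hk
    have e1 : (L k).lt (a i) (b j) := (L k).ext _ (A i) _ (B j) (hab i j hij)
    have e2 : (L k).lt (a j) (b i) := (L k).ext _ (A j) _ (B i) (hab j i hij.symm)
    have e3 : (L k).lt (b j) (b i) := (L k).trans _ (B j) _ (A j) _ (B i) h2 e2
    have e4 : (L k).lt (b j) (a i) := (L k).trans _ (B j) _ (B i) _ (A i) e3 h1
    exact (L k).irrefl _ (A i) ((L k).trans _ (A i) _ (B j) _ (A i) e1 e4)
  rcases hrev 0 with h0 | h0 <;> rcases hrev 1 with h1 | h1 <;> rcases hrev 2 with h2 | h2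
  · exact hno p hp0 0 1 (by decide) h0 h1
  · exact hno p hp0 0 1 (by decide) h0 h1
  · exact hno p hp0 0 2 (by decide) h0 h2
  · exact hno q hq0 1 2 (by decide) h1 h2
  · exact hno p hp0 1 2 (by decide) h1 h2
  · exact hno q hq0 0 2 (by decide) h0 h2
  · exact hno q hq0 0 1 (by decide) h0 h1
  · exact hno q hq0 0 1 (by decide) h0 h1

/-- `2^n` with `n ≥ 3` has local dimension at least three -/
theorem not_le_two_n (n : ℕ) (hn : 3 ≤ n) : ¬ LdimLE (Finset (Fin n)) 2 := by
  intro h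
  have h3 : LdimLE (Finset (Fin 3)) 2 :=
    h.of_embedding (Finset.mapEmbedding (Fin.castLEEmb hn))
  refine not_le_two (α := Finset (Fin 3)) (fun i => {i}) (fun i => Finset.univ.erase i)
    ?_ ?_ ?_ ?_ h3
  · decide
  · decide
  · decide
  · decide

theorem ldim_eq {α : Type} [PartialOrder α] {k : ℕ} (h1 : LdimLE α k)
    (h2 : ∀ j < k, ¬ LdimLE α j) : ldim α = k := by
  apply le_antisymm
  · exact Nat.sInf_le h1
  · by_contra hlt
    push Not at hlt
    exact h2 _ hlt (Nat.sInf_mem (s := {k | LdimLE α k}) ⟨k, h1⟩)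

theorem ldim_zero : ldim (Finset (Fin 0)) = 0 := ldim_eq ldimLE_zero (by simp)

theorem ldim_one : ldim (Finset (Fin 1)) = 1 := by
  refine ldim_eq ldimLE_one ?_
  rintro j hj ⟨m, L, h, hf⟩
  have := freq_ge_one h (x := (∅ : Finset (Fin 1))) (y := {0}) (by decide)
  have := hf ∅
  omega

theorem ldim_two : ldim (Finset (Fin 2)) = 2 := by
  refine ldim_eq (ldimLE_n 2) ?_
  rintro j hj ⟨m, L, h, hf⟩
  have := freq_ge_two h (x := ({0} : Finset (Fin 2))) (y := {1}) (by decide) (by decide)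
  have := hf {0}
  omega

theorem ldim_three : ldim (Finset (Fin 3)) = 3 := by
  refine ldim_eq (ldimLE_n 3) ?_
  intro j hj h
  exact not_le_two_n 3 le_rfl (h.mono (by omega))

/-- **The local dimension of the Boolean lattice.**  `ldim (2^n) = n` holds exactly for `n ≤ 3`;
`ldim (2^4) = 3`, and `ldim (2^n) ≤ n - ⌊n/4⌋` for every `n`. -/
theorem result :
    (∀ n : ℕ, ldim (Finset (Fin n)) = n ↔ n ≤ 3) ∧
    ldim (Finset (Fin 4)) = 3 ∧
    (∀ n : ℕ, ldim (Finset (Fin n)) ≤ n - n / 4) := by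
  have hle : ∀ n : ℕ, ldim (Finset (Fin n)) ≤ n - n / 4 := fun n => Nat.sInf_le (ldimLE_main n)
  refine ⟨?_, ?_, hle⟩
  · intro n
    constructor
    · intro h
      by_contra hn
      have := hle n
      omega
    · intro h
      interval_cases n
      · exact ldim_zero
      · exact ldim_one
      · exact ldim_two
      · exact ldim_three
  · refine ldim_eq ldimLE_four ?_
    intro j hj h
    exact not_le_two_n 4 (by norm_num) (h.mono (by omega))

end Pool.Agent.Results.MP_666a49_co.BooleanLdim
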